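import Pool.Agent.H20R3.Yor.Final

set_option autoImplicit false

/-!
# Yorioka ideals: localization and domination for arbitrary `f`

Adaptations of `localize` and `dominate` of `Pool.Agent.H20R3.Yor`.
-/

namespace Pool.Agent.Y572.YO

open Pool.Agent.H20R3.Yor Set MeasureTheory Cardinal Filter
open scoped ENNReal Cardinal

/-- `I_f` localizes the functions below `b` if `f` grows fast enough -/
theorem localize_gen {f : ℕ → ℕ} (hf : StrictMono f) (b : ℕ → ℕ) {N0 : ℕ}
    (hfb : ∀ n ≥ N0, n + b n ≤ f (2 ^ n)) {T : ℕ → Finset (List Bool)}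
    (hT : ∀ n, (T n).card ≤ 2 ^ n) (hr : Rate f T) {x : ℕ → ℕ} (hx : ∀ n, x n < b n)
    (h : codeSet f x ⊆ LS T) : ∃ n1, ∀ n ≥ n1, x n ∈ slal T n := by
  classical
  obtain ⟨m, hm1, hm, hV⟩ := coin_V_lt hf hT hr
  have hLn : ∀ n ≥ N0, n + b n ≤ f (2 ^ n ^ 2) := by
    intro n hn
    refine (hfb n hn).trans (hf.monotone (Nat.pow_le_pow_right (by norm_num) ?_))
    rw [pow_two]
    exact Nat.le_mul_self n
  have hL : ∀ n, n ≤ f (2 ^ n ^ 2) := fun n => by
    have h1 := hf.id_le (2 ^ n ^ 2)
    simp only [id] at h1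
    have h2 : n < 2 ^ n := Nat.lt_two_pow_self
    have h3 : 2 ^ n ≤ 2 ^ n ^ 2 := Nat.pow_le_pow_right (by norm_num) (by
      rw [pow_two]; exact Nat.le_mul_self n)
    omega
  obtain ⟨d, n0, hcap⟩ := capture hV hm1 (pt_mem x) hL h
  refine ⟨max N0 (max n0 (max m (2 * d + 2))), fun n hn => ?_⟩
  have hN0 : N0 ≤ n := (le_max_left _ _).trans hn
  have hn' := (le_max_right _ _).trans hn
  have hn0 : n0 ≤ n := (le_max_left _ _).trans hn'
  have hnm : m ≤ n := (le_max_left _ _).trans ((le_max_right _ _).trans hn')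
  have hnd : 2 * d + 2 ≤ n := (le_max_right _ _).trans ((le_max_right _ _).trans hn')
  set M := (n + 1) / 2 with hM
  obtain ⟨v, hv, hvD⟩ : ∃ v ∈ Good T m (pt x) (fun n => f (2 ^ n ^ 2)) n,
      ¬ ∃ n' < M, ∃ s ∈ T n', n < s.length ∧ (Cyl s ∩ Bx n v).Nonempty := by
    by_contra hcon
    push Not at hcon
    let D : Finset (Fin n → Bool) := Finset.univ.filter fun v =>
      ∃ n' < M, ∃ s ∈ T n', n < s.length ∧ (Cyl s ∩ Bx n v).Nonempty
    have h1 := hcap n hn0 D (fun v hv => by
      simp only [D, Finset.mem_filter, Finset.mem_univ, true_and]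
      exact hcon v hv)
    have h2 := card_killed hT n M D (fun v hv => by
      simpa only [D, Finset.mem_filter, Finset.mem_univ, true_and] using hv)
    have h3 : 2 ^ n < 2 ^ M * 2 ^ d := h1.trans_lt (Nat.mul_lt_mul_of_pos_right h2 (by positivity))
    rw [← pow_add] at h3
    have h4 := (Nat.pow_lt_pow_iff_right (by norm_num)).1 h3
    omega
  obtain ⟨n', hn'm, hn'N, s, hs, y, hy, hy'⟩ := Good.captured hT hv (N := n ^ 2 + 1) (by omega)
    (fun n' hn' s hs => by
      have h1 : n ≤ n ^ 2 := by rw [pow_two]; exact Nat.le_mul_self n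
      have h2 := hm n' (by omega) s hs
      have h3 := num_bound hn'
      have h4 := hf.add_le_nat (2 ^ (2 * n') - 2 ^ n ^ 2) (2 ^ n ^ 2)
      rw [Nat.sub_add_cancel (by omega)] at h4
      omega)
  have hyB : y ∈ Bx n v := Cyl_seg_subset_Bx (pt_mem x) hL n v hy'
  have hlong := Good.long hv hn'm hs ⟨y, hy, hyB⟩
  have hMn' : M ≤ n' := by
    by_contra hc
    exact hvD ⟨n', not_le.1 hc, s, hs, hlong, y, hy, hyB⟩
  have hlen : n + b n ≤ s.length := by
    refine (hfb n hN0).trans ((hf.monotone ?_).trans (hm n' hn'm s hs))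
    exact Nat.pow_le_pow_right (by norm_num) (by omega)
  have hbit : ∀ j < b n, s.getD (n + j) false = decide (j = x n) := by
    intro j hj
    have h1 : n + j < s.length := by omega
    rw [List.getD_eq_getElem _ _ h1, hy (n + j) h1,
      ← mem_Cyl_seg.1 hy' (n + j) ((Nat.add_lt_add_left hj n).trans_le (hLn n hN0))]
    simp [pt]
  have hdec : dec n s = x n := by
    unfold dec
    apply le_antisymm
    · apply Nat.sInf_le
      change s.getD (n + x n) false = true
      rw [hbit _ (hx n)]; simp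
    · apply le_csInf
      · exact ⟨x n, by change s.getD (n + x n) false = true; rw [hbit _ (hx n)]; simp⟩
      · intro j hj
        by_contra hc
        have hj' : s.getD (n + j) false = true := hj
        rw [hbit j ((not_le.1 hc).trans (hx n))] at hj'
        simp at hj'
        omega
  rw [← hdec]
  apply Finset.mem_image_of_mem
  rw [Finset.mem_biUnion]
  exact ⟨n', Finset.mem_range.2 hn'N, hs⟩

/-- the member of `I_f` coding `g` -/
def domG (f g : ℕ → ℕ) : Set Cantor :=
  LS (fam (pt fun _ => 0) fun n => f (2 ^ (n * (slow g n + 1))))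

theorem domG_mem {f : ℕ → ℕ} (hf : StrictMono f) (g : ℕ → ℕ) : domG f g ∈ yorioka f := by
  apply LS_mem_yorioka hf.monotone
  · intro n
    exact (card_fam _ _ n).trans (Nat.pow_le_pow_right (by norm_num) (by omega))
  · intro k
    refine ⟨max k (up g k), fun n hn s hs => ?_⟩
    obtain ⟨v, _, rfl⟩ := Finset.mem_image.1 hs
    rw [length_seg]
    apply hf.monotone
    apply Nat.pow_le_pow_right (by norm_num)
    rw [mul_comm]
    apply Nat.mul_le_mul_left
    have := le_slow ((le_max_left _ _).trans hn) ((le_max_right _ _).trans hn)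
    omega

/-- every `I_f` codes domination -/
theorem dominate_gen {f : ℕ → ℕ} (hf : StrictMono f) {T : ℕ → Finset (List Bool)}
    (hT : ∀ n, (T n).card ≤ 2 ^ n) {M : ℕ → ℕ}
    (hM : ∀ k, ∀ n ≥ M k, ∀ s ∈ T n, f (2 ^ (k * n)) ≤ s.length) {g : ℕ → ℕ}
    (h : domG f g ⊆ LS T) : ∃ k0, ∀ k ≥ k0, g k ≤ M (2 * k + 2) + k := by
  classical
  have hr : Rate f T := fun k => ⟨M k, fun n hn s hs => hM k n hn s hs⟩
  obtain ⟨m, hm1, hm, hV⟩ := coin_V_lt hf hT hr
  have hL : ∀ n, n ≤ f (2 ^ (n * (slow g n + 1))) := by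
    intro n
    have h1 := hf.id_le (2 ^ (n * (slow g n + 1)))
    simp only [id] at h1
    refine (Nat.lt_two_pow_self.le.trans (Nat.pow_le_pow_right (by norm_num) ?_)).trans h1
    exact Nat.le_mul_of_pos_right _ (Nat.succ_pos _)
  obtain ⟨d, n0, hcap⟩ := capture hV hm1 (pt_mem _) hL h
  refine ⟨n0 + 3 * d + 3, fun k hk => ?_⟩
  set n := M (2 * k + 2) + k with hn
  have key : k ≤ slow g n := by
    by_contra hcon
    have hcon' : slow g n + 1 ≤ k := not_le.1 hcon
    have hall : ∀ v ∈ Good T m (pt fun _ => 0) (fun n => f (2 ^ (n * (slow g n + 1)))) n,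
        ∃ n' < n - d, ∃ s ∈ T n', n < s.length ∧ (Cyl s ∩ Bx n v).Nonempty := by
      intro v hv
      obtain ⟨n', hn'm, hn'N, s, hs, y, hy, hy'⟩ := Good.captured hT hv (N := n - d) (by omega)
        (fun n' hn' s hs => by
          refine le_trans ?_ (hM (2 * k + 2) n' (by omega) s hs)
          have h1 : 2 ^ (n * (slow g n + 1)) ≤ 2 ^ (2 * n' * k) := by
            apply Nat.pow_le_pow_right (by norm_num)
            exact Nat.mul_le_mul (by omega) hcon'
          have h2 := num_bound2 (a := 2 ^ (2 * n' * k)) (z := 2 * n') Nat.one_le_two_pow (by omega)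
          have h3 : 2 ^ (2 * n' * k) * 2 ^ (2 * n') = 2 ^ ((2 * k + 2) * n') := by
            rw [← pow_add]; congr 1; ring
          rw [h3] at h2
          have h4 := hf.add_le_nat (2 ^ ((2 * k + 2) * n') - 2 ^ (n * (slow g n + 1)))
            (2 ^ (n * (slow g n + 1)))
          rw [Nat.sub_add_cancel (by omega)] at h4
          omega)
      have hyB : y ∈ Bx n v := Cyl_seg_subset_Bx (pt_mem _) hL n v hy'
      exact ⟨n', hn'N, s, hs, Good.long hv hn'm hs ⟨y, hy, hyB⟩, y, hy, hyB⟩
    let D : Finset (Fin n → Bool) := Finset.univ.filter fun v =>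
      ∃ n' < n - d, ∃ s ∈ T n', n < s.length ∧ (Cyl s ∩ Bx n v).Nonempty
    have h1 := hcap n (by omega) D (fun v hv => by
      simp only [D, Finset.mem_filter, Finset.mem_univ, true_and]
      exact hall v hv)
    have h2 := card_killed hT n (n - d) D (fun v hv => by
      simpa only [D, Finset.mem_filter, Finset.mem_univ, true_and] using hv)
    have h3 : 2 ^ n < 2 ^ (n - d) * 2 ^ d :=
      h1.trans_lt (Nat.mul_lt_mul_of_pos_right h2 (by positivity))
    rw [← pow_add] at h3
    have h4 := (Nat.pow_lt_pow_iff_right (by norm_num)).1 h3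
    omega
  have h5 : slow g n ≠ 0 := by omega
  exact (le_up g k).trans ((up_mono g key).trans (up_slow h5))

end Pool.Agent.Y572.YO
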