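import Pool.Agent.Y572.YO.Gen

set_option autoImplicit false

/-!
# Yorioka ideals of fast growing functions
-/

namespace Pool.Agent.Y572.YO

open Pool.Agent.H20R3.Yor Set MeasureTheory Cardinal Filter
open scoped ENNReal Cardinal

/-- the bounding number: the least size of a family of functions which is not eventually dominated
by a single function -/
noncomputable def bNum : Cardinal.{0} :=
  sInf {κ | ∃ F : Set (ℕ → ℕ), (∀ g : ℕ → ℕ, ∃ x ∈ F, ¬ ∀ᶠ n in atTop, x n ≤ g n) ∧ #F = κ}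

/-- every function is eventually below a member of `D` -/
def Dominating (D : Set (ℕ → ℕ)) : Prop := ∀ g : ℕ → ℕ, ∃ f ∈ D, ∀ᶠ n in atTop, g n ≤ f n

/-- the dominating number: the least size of a dominating family -/
noncomputable def dNum : Cardinal.{0} := sInf {κ | ∃ D : Set (ℕ → ℕ), Dominating D ∧ #D = κ}

theorem exists_bNum : ∃ F : Set (ℕ → ℕ), (∀ g : ℕ → ℕ, ∃ x ∈ F, ¬ ∀ᶠ n in atTop, x n ≤ g n) ∧
    #F = bNum := by
  refine csInf_mem (s := {κ | ∃ F : Set (ℕ → ℕ), (∀ g : ℕ → ℕ, ∃ x ∈ F,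
    ¬ ∀ᶠ n in atTop, x n ≤ g n) ∧ #F = κ}) ⟨_, Set.univ, fun g => ⟨fun n => g n + 1, mem_univ _,
      fun h => ?_⟩, rfl⟩
  obtain ⟨n, hn⟩ := h.exists
  have hn' : g n + 1 ≤ g n := hn
  omega

theorem exists_dNum : ∃ D : Set (ℕ → ℕ), Dominating D ∧ #D = dNum :=
  csInf_mem (s := {κ | ∃ D : Set (ℕ → ℕ), Dominating D ∧ #D = κ})
    ⟨_, Set.univ, fun g => ⟨g, mem_univ _, Eventually.of_forall fun _ => le_rfl⟩, rfl⟩

theorem bNum_le {F : Set (ℕ → ℕ)} (h : ∀ g : ℕ → ℕ, ∃ x ∈ F, ¬ ∀ᶠ n in atTop, x n ≤ g n) :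
    bNum ≤ #F := csInf_le' ⟨F, h, rfl⟩

theorem dNum_le {D : Set (ℕ → ℕ)} (h : Dominating D) : dNum ≤ #D := csInf_le' ⟨D, h, rfl⟩

/-- `add(I_f) ≤ b` -/
theorem add_le_b {f : ℕ → ℕ} (hf : StrictMono f) : addNum (yorioka f) ≤ bNum := by
  classical
  obtain ⟨F, hF, hc⟩ := exists_bNum
  rw [← hc]
  by_contra hlt
  rw [not_le] at hlt
  have h1 : domG f '' F ⊆ yorioka f := by
    rintro _ ⟨A, _, rfl⟩
    exact domG_mem hf _
  have h2 := sUnion_mem h1 (mk_image_le.trans_lt hlt)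
  obtain ⟨T, hT, hr, hsub⟩ := exists_blocks_of_mem hf.monotone h2
  choose M hM using hr
  obtain ⟨x, hx, hx'⟩ := hF (fun k => M (2 * k + 2) + k)
  apply hx'
  obtain ⟨k0, hk0⟩ := dominate_gen hf hT hM
    ((subset_sUnion_of_mem (mem_image_of_mem _ hx)).trans hsub)
  exact eventually_atTop.2 ⟨k0, hk0⟩

/-- `d ≤ cof(I_f)` -/
theorem d_le_cof {f : ℕ → ℕ} (hf : StrictMono f) : dNum ≤ cofNum (yorioka f) := by
  classical
  obtain ⟨C, hCs, hCc, hC⟩ := exists_cof (yorioka f)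
  rw [← hC]
  have h1 : ∀ B ∈ C, ∃ (T : ℕ → Finset (List Bool)) (M : ℕ → ℕ), (∀ n, (T n).card ≤ 2 ^ n) ∧
      (∀ k, ∀ n ≥ M k, ∀ s ∈ T n, f (2 ^ (k * n)) ≤ s.length) ∧ B ⊆ LS T := by
    intro B hB
    obtain ⟨T, hT, hr, hsub⟩ := exists_blocks_of_mem hf.monotone (hCs hB)
    choose M hM using hr
    exact ⟨T, M, hT, hM, hsub⟩
  choose! T M hT hM hsub using h1
  refine (dNum_le (D := (fun B k => M B (2 * k + 2) + k) '' C) fun g => ?_).trans mk_image_le
  obtain ⟨B, hB, hgB⟩ := hCc (domG f g) (domG_mem hf g)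
  obtain ⟨k0, hk0⟩ := dominate_gen hf (hT B hB) (hM B hB) (hgB.trans (hsub B hB))
  exact ⟨_, mem_image_of_mem _ hB, eventually_atTop.2 ⟨k0, hk0⟩⟩

theorem sUnion_null_notMem : ⋃₀ nullIdeal ∉ nullIdeal := fun h => univ_notMem_null (by
  refine null_mono ?_ h
  rw [← sUnion_yorioka monotone_id]
  exact sUnion_subset_sUnion (yorioka_subset_null strictMono_id))

/-- fast growing functions are above the bound -/
theorem fast {b f : ℕ → ℕ} (h : ∀ᶠ n in atTop, fb b n ≤ f n) :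
    ∃ N0, ∀ n ≥ N0, n + b n ≤ f (2 ^ n) := by
  obtain ⟨N0, hN0⟩ := eventually_atTop.1 h
  refine ⟨N0, fun n hn => (le_fb b n).trans (hN0 _ ?_)⟩
  exact hn.trans Nat.lt_two_pow_self.le

theorem tr_lt (g x : ℕ → ℕ) (n : ℕ) : tr (fun n => g n + 1) x n < g n + 1 := by
  change min (x n) (g n + 1 - 1) < g n + 1
  omega

theorem tr_eq {g x : ℕ → ℕ} {n : ℕ} (h : x n ≤ g n) : tr (fun n => g n + 1) x n = x n := by
  change min (x n) (g n + 1 - 1) = x n
  omega

/-- `add(I_f) = add(N)` for all fast growing `f` -/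
theorem add_fast : ∃ f₀ : ℕ → ℕ, ∀ f : ℕ → ℕ, StrictMono f → (∀ᶠ n in atTop, f₀ n ≤ f n) →
    addNum (yorioka f) = addNum nullIdeal := by
  classical
  obtain ⟨F, hF, hU, hc⟩ := exists_add (I := nullIdeal) sUnion_null_notMem
  have hcode : ∀ Z ∈ F, ∃ x : ℕ → ℕ, ∀ φ : ℕ → Finset ℕ, (∃ n1, ∀ n ≥ n1, x n ∈ φ n) →
      Z ⊆ nullOf φ := fun Z hZ => exists_code (hF hZ)
  choose! x hx using hcode
  by_cases hb : ∃ g : ℕ → ℕ, ∀ Z ∈ F, ∀ᶠ n in atTop, x Z n ≤ g n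
  · obtain ⟨g, hg⟩ := hb
    refine ⟨fb (fun n => g n + 1), fun f hf hfast => le_antisymm ?_ (add_null_le hf)⟩
    obtain ⟨N0, hN0⟩ := fast hfast
    by_contra hlt
    rw [not_le, ← hc] at hlt
    have h4 : (fun Z => codeSet f (tr (fun n => g n + 1) (x Z))) '' F ⊆ yorioka f := by
      rintro _ ⟨A, _, rfl⟩
      exact codeSet_mem hf _
    have h5 := sUnion_mem h4 (mk_image_le.trans_lt hlt)
    obtain ⟨T', hT', hr', hsub'⟩ := exists_blocks_of_mem hf.monotone h5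
    apply hU
    refine null_mono ?_ (show nullOf (slal T') ∈ nullIdeal from nullOf_null (card_slal hT'))
    apply sUnion_subset
    intro Z hZ
    apply hx Z hZ
    obtain ⟨k0, hk0⟩ := eventually_atTop.1 (hg Z hZ)
    obtain ⟨n1, hn1⟩ := localize_gen hf (fun n => g n + 1) hN0 hT' hr' (tr_lt g (x Z))
      ((subset_sUnion_of_mem (mem_image_of_mem _ hZ)).trans hsub')
    refine ⟨max k0 n1, fun n hn => ?_⟩
    have h6 := hn1 n ((le_max_right _ _).trans hn)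
    rwa [tr_eq (hk0 n ((le_max_left _ _).trans hn))] at h6
  · push Not at hb
    refine ⟨id, fun f hf _ => le_antisymm ((add_le_b hf).trans ?_) (add_null_le hf)⟩
    rw [← hc]
    refine (bNum_le (F := x '' F) fun g => ?_).trans mk_image_le
    obtain ⟨Z, hZ, hZ'⟩ := hb g
    refine ⟨_, mem_image_of_mem _ hZ, fun hev => ?_⟩
    obtain ⟨n, h1, h2⟩ := (hZ'.and_eventually hev).exists
    omega

theorem aleph0_le_cof {f : ℕ → ℕ} (hf : StrictMono f) : ℵ₀ ≤ cofNum (yorioka f) := by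
  obtain ⟨F, hF, hC, hc⟩ := exists_cof (yorioka f)
  rw [← hc]
  by_contra hlt
  have hcount : F.Countable := by
    rw [← Cardinal.le_aleph0_iff_set_countable]
    exact (not_le.1 hlt).le
  apply univ_notMem_null
  refine null_mono ?_ (show ⋃₀ F ∈ nullIdeal from
    (measure_sUnion_null_iff hcount).2 fun A hA => yorioka_null hf (hF hA))
  rw [← sUnion_yorioka hf.monotone]
  apply sUnion_subset
  intro A hA
  obtain ⟨B, hB, hAB⟩ := hC A hA
  exact hAB.trans (subset_sUnion_of_mem hB)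

/-- the supremum of the cofinalities over a dominating family -/
theorem cof_dominating {D : Set (ℕ → ℕ)} (hD : Dominating D) (hDs : ∀ f ∈ D, StrictMono f) :
    ⨆ f : D, cofNum (yorioka f) = cofNum nullIdeal := by
  classical
  obtain ⟨f1, hf1, -⟩ := hD id
  have : Nonempty D := ⟨⟨f1, hf1⟩⟩
  have hle : ∀ f ∈ D, cofNum (yorioka f) ≤ ⨆ f : D, cofNum (yorioka f) := fun f hf =>
    le_ciSup (f := fun f : D => cofNum (yorioka f)) Cardinal.bddAbove_of_small ⟨f, hf⟩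
  refine le_antisymm (ciSup_le fun f => cof_le_null (hDs f f.2)) ?_
  have hC0 := fun f : ℕ → ℕ => exists_cof (yorioka f)
  choose C hCs hCc hC using hC0
  have h1 : ∀ B ∈ C f1, ∃ (T : ℕ → Finset (List Bool)) (M : ℕ → ℕ), (∀ n, (T n).card ≤ 2 ^ n) ∧
      (∀ k, ∀ n ≥ M k, ∀ s ∈ T n, f1 (2 ^ (k * n)) ≤ s.length) ∧ B ⊆ LS T := by
    intro B hB
    obtain ⟨T, hT, hr, hsub⟩ := exists_blocks_of_mem (hDs f1 hf1).monotone (hCs f1 hB)
    choose M hM using hr
    exact ⟨T, M, hT, hM, hsub⟩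
  choose! T M hT hM hsub using h1
  -- the bound and the function for a member of `C f1`
  let gB : Set Cantor → ℕ → ℕ := fun B k => M B (2 * k + 2) + k
  have h1' : ∀ B : Set Cantor, ∃ f ∈ D, ∀ᶠ n in atTop, fb (fun n => gB B n + 1) n ≤ f n :=
    fun B => hD _
  choose fB hfB hfast using h1'
  have h2 : ∀ f ∈ D, ∀ B ∈ C f, ∃ T : ℕ → Finset (List Bool),
      (∀ n, (T n).card ≤ 2 ^ n) ∧ Rate f T ∧ B ⊆ LS T := fun f hf B hB =>
    exists_blocks_of_mem (hDs f hf).monotone (hCs _ hB)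
  choose! T' hT' hr' hsub' using h2
  let ι : Type := Σ B : C f1, C (fB B.1)
  let W : ι → Set Cantor := fun p => nullOf (slal (T' (fB p.1.1) p.2.1))
  have h3 : range W ⊆ nullIdeal := by
    rintro _ ⟨p, rfl⟩
    exact nullOf_null (card_slal (hT' _ (hfB _) _ p.2.2))
  have h4 : ∀ Z ∈ nullIdeal, ∃ B ∈ range W, Z ⊆ B := by
    intro Z hZ
    obtain ⟨x, hx⟩ := exists_code hZ
    obtain ⟨B, hB, hxB⟩ := hCc f1 (domG f1 x) (domG_mem (hDs f1 hf1) x)
    obtain ⟨k0, hk0⟩ := dominate_gen (hDs f1 hf1) (hT B hB) (hM B hB) (hxB.trans (hsub B hB))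
    obtain ⟨N0, hN0⟩ := fast (hfast B)
    have hfs := hDs _ (hfB B)
    obtain ⟨B', hB', hxB'⟩ := hCc (fB B) (codeSet (fB B) (tr (fun n => gB B n + 1) x))
      (codeSet_mem hfs _)
    refine ⟨_, ⟨⟨⟨B, hB⟩, ⟨B', hB'⟩⟩, rfl⟩, hx _ ?_⟩
    obtain ⟨n1, hn1⟩ := localize_gen hfs (fun n => gB B n + 1) hN0 (hT' _ (hfB B) _ hB')
      (hr' _ (hfB B) _ hB') (tr_lt (gB B) x) (hxB'.trans (hsub' _ (hfB B) _ hB'))
    refine ⟨max k0 n1, fun n hn => ?_⟩
    have h6 := hn1 n ((le_max_right _ _).trans hn)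
    have h7 : x n ≤ gB B n := hk0 n ((le_max_left _ _).trans hn)
    rwa [tr_eq h7] at h6
  refine (cofNum_le h3 h4).trans (mk_range_le.trans ?_)
  set s : Cardinal := ⨆ f : D, cofNum (yorioka f) with hs
  have h5 : #ι ≤ #(C f1) * s := by
    rw [mk_sigma]
    refine (Cardinal.sum_le_sum _ (fun _ => s) fun B => ?_).trans ?_
    · rw [hC]
      exact hle _ (hfB _)
    · rw [Cardinal.sum_const']
  refine h5.trans ?_
  rw [hC]
  exact (mul_le_mul_left (hle f1 hf1) _).trans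
    (mul_eq_self ((aleph0_le_cof (hDs f1 hf1)).trans (hle f1 hf1))).le

/-- the cofinalities for fast growing functions -/
theorem cof_fast (h : cofNum nullIdeal = dNum ∨ dNum < (cofNum nullIdeal).ord.cof) :
    ∃ f₀ : ℕ → ℕ, ∀ f : ℕ → ℕ, StrictMono f → (∀ᶠ n in atTop, f₀ n ≤ f n) →
      cofNum (yorioka f) = cofNum nullIdeal := by
  classical
  rcases h with h | h
  · exact ⟨id, fun f hf _ => le_antisymm (cof_le_null hf) (h ▸ d_le_cof hf)⟩
  · by_contra hcon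
    push Not at hcon
    choose φ hφs hφ hφc using hcon
    obtain ⟨D0, hD0, hc⟩ := exists_dNum
    have hD : Dominating (φ '' D0) := by
      intro g
      obtain ⟨f, hf, hgf⟩ := hD0 g
      exact ⟨_, mem_image_of_mem _ hf, (hgf.and (hφ f)).mono fun n hn => hn.1.trans hn.2⟩
    have hDs : ∀ f ∈ φ '' D0, StrictMono f := by
      rintro _ ⟨f, _, rfl⟩
      exact hφs f
    have h1 := cof_dominating hD hDs
    have h2 : (⨆ f : (φ '' D0 : Set (ℕ → ℕ)), cofNum (yorioka f)) < cofNum nullIdeal := by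
      apply Cardinal.iSup_lt_of_lt_cof_ord
      · exact (mk_image_le.trans hc.le).trans_lt h
      · rintro ⟨_, f, _, rfl⟩
        exact lt_of_le_of_ne (cof_le_null (hφs f)) (hφc f)
    exact absurd h1 h2.ne

end Pool.Agent.Y572.YO
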